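import Mathlib
import Pool.Agent.Q103.OP.All

/-!
# Strong uniform boundedness for all rational maps over function fields of characteristic zero,
except flexible Lattes maps
-/

namespace Pool.Agent.Results.MP_9b502d_nt.AllMapsExceptLattes

open Polynomial

universe u v

/-- The self-map of the projective line `K ∪ {∞}`, where `none` is `∞`, given by the rational
function `p / q`, where `p` and `q` are coprime and `d` is the larger of their degrees: it sends
`x` to `p(x) / q(x)`, or to `∞` when `q(x) = 0`, and it sends `∞` to the quotient of the
coefficients of degree `d`, or to `∞` when that of `q` is zero. -/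
noncomputable def mapP1 {K : Type*} [Field K] (p q : K[X]) (d : ℕ) : Option K → Option K
  | some x => by classical exact if q.eval x = 0 then none else some (p.eval x / q.eval x)
  | none => by classical exact if q.coeff d = 0 then none else some (p.coeff d / q.coeff d)

/-- The preperiodic points in the projective line over `K` of the map `p / q` of degree `d`: the
points with a finite forward orbit. -/
def PrePer {K : Type*} [Field K] (p q : K[X]) (d : ℕ) : Set (Option K) :=
  {z | (Set.range fun m : ℕ => (mapP1 p q d)^[m] z).Finite}

/-- With `φ(x) = (a x + b) / (c x + e)`, the map `p / q` of degree `d` satisfies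
`φ ∘ (p / q) = (u / w) ∘ φ` for some `a, b, c, e` in `K` with `a e ≠ b c` and some polynomials
`u, w` of degree at most `d`, not both zero, with coefficients algebraic over `k`; the equation is
written with denominators cleared. For an algebraically closed field `K` this says that `p / q` is
isotrivial. -/
def Isotrivial (k : Type*) {K : Type*} [Field k] [Field K] [Algebra k K] (p q : K[X])
    (d : ℕ) : Prop :=
  ∃ a b c e : K, a * e - b * c ≠ 0 ∧ ∃ u w : K[X], (u ≠ 0 ∨ w ≠ 0) ∧
    u.natDegree ≤ d ∧ w.natDegree ≤ d ∧ (∀ n, IsAlgebraic k (u.coeff n)) ∧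
    (∀ n, IsAlgebraic k (w.coeff n)) ∧
    (C a * p + C b * q) * ∑ i ∈ Finset.range (d + 1),
      C (w.coeff i) * (C a * X + C b) ^ i * (C c * X + C e) ^ (d - i) =
    (C c * p + C e * q) * ∑ i ∈ Finset.range (d + 1),
      C (u.coeff i) * (C a * X + C b) ^ i * (C c * X + C e) ^ (d - i)

/-- The map `f = p / q` of degree `d` is a flexible Lattes map (`K` is algebraically closed of
characteristic zero): there is a rational function `φ = r / s`, not zero, such that
`φ(f(z)) f'(z) ^ 2 = d φ(z)` for all `z` in `K` at which the denominators do not vanish. -/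
def FlexibleLattes {K : Type*} [Field K] (p q : K[X]) (d : ℕ) : Prop :=
  ∃ r s : K[X], r ≠ 0 ∧ s ≠ 0 ∧ ∀ z : K, q.eval z ≠ 0 → s.eval z ≠ 0 →
    s.eval (p.eval z / q.eval z) ≠ 0 →
    r.eval (p.eval z / q.eval z) / s.eval (p.eval z / q.eval z) *
      ((derivative p * q - p * derivative q).eval z / q.eval z ^ 2) ^ 2 =
    (d : K) * (r.eval z / s.eval z)

/-- The field `K` over `k` is a finite extension of `k(t)` of degree at most `n` for some `t`
transcendental over `k`. -/
def FunctionField (k K : Type*) [Field k] [Field K] [Algebra k K] (n : ℕ) : Prop :=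
  ∃ t : K, Transcendental k t ∧ FiniteDimensional (IntermediateField.adjoin k {t}) K ∧
    Module.finrank (IntermediateField.adjoin k {t}) K ≤ n

/-- The rational map `p / q` over `L` has degree `d` and is not isotrivial, and, if `d` is a perfect
square, it is not a flexible Lattes map. -/
def Admissible (k : Type*) {L : Type u} [Field k] [Field L] [Algebra k L] (p q : L[X])
    (d : ℕ) : Prop :=
  IsCoprime p q ∧ max p.natDegree q.natDegree = d ∧
    ¬ Isotrivial k (p.map (algebraMap L (AlgebraicClosure L)))
      (q.map (algebraMap L (AlgebraicClosure L))) d ∧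
    (¬ IsSquare d ∨ ¬ FlexibleLattes (p.map (algebraMap L (AlgebraicClosure L)))
      (q.map (algebraMap L (AlgebraicClosure L))) d)

/-- The preperiodic points of degree at most `D` over `L` of the map `p / q` of degree `d` over
`L`, in the projective line over an algebraic closure of `L`. -/
def PrePerDeg {L : Type u} [Field L] (p q : L[X]) (d D : ℕ) : Set (Option (AlgebraicClosure L)) :=
  {z | z ∈ PrePer (p.map (algebraMap L (AlgebraicClosure L)))
      (q.map (algebraMap L (AlgebraicClosure L))) d ∧
    ∀ x, z = some x → (minpoly L x).natDegree ≤ D}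

lemma flex_of_lat {K : Type*} [Field K] {p q : K[X]} {d : ℕ}
    (h : Pool.Agent.Q103.OP.Lat d p q) : FlexibleLattes p q d := by
  obtain ⟨e, r, s, hr, hs, hre, hse, hid⟩ := h
  refine ⟨r, s, hr, hs, fun z hq hsz hsf => ?_⟩
  have h1 := congrArg (eval z) hid
  simp only [eval_mul, eval_pow, eval_C] at h1
  rw [Pool.Agent.W277.UH.hc_eval, Pool.Agent.W277.UH.hc_eval,
    Pool.Agent.W277.UH.hev_eval e r hre (p.eval z, q.eval z) hq,
    Pool.Agent.W277.UH.hev_eval e s hse (p.eval z, q.eval z) hq] at h1
  simp only at h1
  have hqe : q.eval z ^ e ≠ 0 := pow_ne_zero _ hq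
  have h2 : r.eval (p.eval z / q.eval z) * (Pool.Agent.Q103.OP.Wr p q).eval z ^ 2 * s.eval z =
      (d : K) * r.eval z * s.eval (p.eval z / q.eval z) * q.eval z ^ 4 := by
    apply mul_left_cancel₀ hqe
    linear_combination h1
  have h3 : (Pool.Agent.Q103.OP.Wr p q).eval z =
      (derivative p * q - p * derivative q).eval z := rfl
  rw [h3] at h2
  rw [div_pow, div_mul_div_comm, mul_div_assoc', div_eq_div_iff (mul_ne_zero hsf (by positivity))
    hsz]
  linear_combination h2

/-- **Strong uniform boundedness for all rational maps in characteristic zero, except flexible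
Lattes maps.** There is a function `N` such that the following holds for every field `k` of
characteristic zero and every finite extension `K` of `k(t)` of degree at most `n`. Let `L` be an
extension of `K` of degree at most `D`, and let `f = p / q` be a rational map of degree `d ≥ 2`
over `L` which is not isotrivial. Suppose that `d` is not a perfect square or that `f` is not a
flexible Lattes map. Then `f` has at most `N(n, D, d)` preperiodic points of degree at most `D`
over `L`; in particular it has at most `N(n, D, d)` preperiodic points in the projective line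
over `L`. -/
theorem result : ∃ N : ℕ → ℕ → ℕ → ℕ, ∀ (k : Type v) (K L : Type u) [Field k] [CharZero k]
    [Field K] [Algebra k K] [Field L] [Algebra k L] [Algebra K L] [IsScalarTower k K L]
    (n D d : ℕ), FunctionField k K n → FiniteDimensional K L → Module.finrank K L ≤ D → 2 ≤ d →
    ∀ p q : L[X], Admissible k p q d → (PrePerDeg p q d D).encard ≤ ((N n D d : ℕ) : ℕ∞) := by
  obtain ⟨N, hN⟩ := Pool.Agent.Q103.OP.Fin.sub Pool.Agent.Q103.OP.t_LCA.{u, v}
  have e : ∀ {K : Type u} [Field K] (p q : K[X]) (d : ℕ),
      mapP1 p q d = Pool.Agent.W277.UH.ratP1 p q d := by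
    intro K _ p q d
    funext z
    cases z <;> rfl
  refine ⟨fun n D d => N (n * D) D d, ?_⟩
  intro k K L _ _ _ _ _ _ _ _ n D d hff hLfd hLD hd p q ⟨hco, hmax, hiso, hcase⟩
  obtain ⟨t, ht, hfd, hn⟩ := hff
  have hcL : CharZero L := charZero_of_injective_algebraMap (algebraMap k L).injective
  have hcL' : CharZero (AlgebraicClosure L) :=
    charZero_of_injective_algebraMap (algebraMap L (AlgebraicClosure L)).injective
  have htL : Transcendental k (algebraMap K L t) :=
    (transcendental_algebraMap_iff (algebraMap K L).injective).mpr ht
  have hHTE := Pool.Agent.Y555.CH.t_HTE k K L t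
  have hfr : Module.finrank (IntermediateField.adjoin k {algebraMap K L t}) L ≤ n * D := by
    rw [hHTE]
    exact Nat.mul_le_mul hn hLD
  have hfdL : FiniteDimensional (IntermediateField.adjoin k {algebraMap K L t}) L := by
    apply Module.finite_of_finrank_pos
    rw [hHTE]
    exact Nat.mul_pos Module.finrank_pos Module.finrank_pos
  have h := hN k L (algebraMap K L t) htL hfdL (n * D) D d hfr hd p q ⟨hco, hmax⟩ hiso
    (fun hlat => by
      rcases hcase with h | h
      · refine h (Pool.Agent.Q103.OP.t_SQR _ d hd _ _ ⟨?_, ?_⟩ hlat)
        · exact (isCoprime_map _).mpr hco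
        · rw [natDegree_map, natDegree_map]
          exact hmax
      · exact h (flex_of_lat hlat))
  unfold PrePerDeg PrePer
  rw [e]
  exact h

end Pool.Agent.Results.MP_9b502d_nt.AllMapsExceptLattes
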