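import Pool.Agent.Q256.LH.D1

/-!
# Maps whose height is large against the discriminant of the function field

For every `d ≥ 2` there is a number `N`, depending on nothing but `d`, such that for every field
`k` of characteristic zero and every finite extension `K` of `k(t)`, of any degree and any genus, a
non-isotrivial map of degree `d` over `K` with more than `N` preperiodic points in the projective
line over `K` is conjugate over `K` to a map of height at most `N deg δ`, where `δ` is the
discriminant of `K / k(t)`; in the new coordinates all preperiodic points over `K` have height at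
most `N deg δ` too.  In other words, all maps of larger height have at most `N` preperiodic points
over `K`.
-/

set_option autoImplicit false

namespace Pool.Agent.Results.MP_9b502d_nt.HeightAboveDiscriminant

universe u v

/-- The isotrivial maps: `f` is conjugate, over the algebraic closure of `K`, to a map whose
coefficients are algebraic over `k`. -/
def Isotrivial (k : Type v) {K : Type u} [Field k] [Field K] [Algebra k K] (d : ℕ)
    (f : Fin 2 → MvPolynomial (Fin 2) K) : Prop :=
  ∃ (A : Matrix (Fin 2) (Fin 2) (AlgebraicClosure K))
    (g : Fin 2 → MvPolynomial (Fin 2) (AlgebraicClosure K)),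
    A.det ≠ 0 ∧ (∀ i, (g i).IsHomogeneous d) ∧ (∀ i m, IsAlgebraic k ((g i).coeff m)) ∧
      ∀ x : Fin 2 → AlgebraicClosure K, x ≠ 0 → ∃ c : AlgebraicClosure K, c ≠ 0 ∧
        (fun i => MvPolynomial.aeval (A.mulVec x) (f i)) =
          c • A.mulVec (fun i => MvPolynomial.eval x (g i))

/-- The map `(x₀, x₁) ↦ (f₀(x₀, x₁), f₁(x₀, x₁))` of the plane given by two binary forms. -/
noncomputable def map {K : Type u} [Field K] (f : Fin 2 → MvPolynomial (Fin 2) K)
    (x : Fin 2 → K) : Fin 2 → K :=
  fun i => MvPolynomial.eval x (f i)

/-- The vector `x` is not zero and its class in the projective line is a preperiodic point of the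
map given by `f`. -/
def Preperiodic {K : Type u} [Field K] (f : Fin 2 → MvPolynomial (Fin 2) K) (x : Fin 2 → K) :
    Prop :=
  x ≠ 0 ∧ ∃ m n : ℕ, m < n ∧ ∃ c : K, c ≠ 0 ∧ (map f)^[n] x = c • (map f)^[m] x

/-- The height of an element `c` of a function field `K` over `k`: the degree of `K` over `k(c)` if
`c` is transcendental over `k`. It is zero for `c` algebraic over `k` (as `Module.finrank` is zero
for an extension of infinite degree). -/
noncomputable def height (k : Type v) {K : Type u} [Field k] [Field K] [Algebra k K] (c : K) : ℕ :=
  Module.finrank (IntermediateField.adjoin k {c}) K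

/-- The determinant of two vectors of the plane: it is zero if and only if they are
proportional. -/
def wedge {K : Type u} [Field K] (x y : Fin 2 → K) : K := x 0 * y 1 - x 1 * y 0

/-- For every `d ≥ 2` there is `N` such that for every field `k` of characteristic zero, every
finite extension `K` of `k(t)` and every basis `b` of `K` over `k(t)` which consists of elements
integral over `k[t]`, the discriminant of `b` is a polynomial `δ`, and every map `f` of degree `d`
of the projective line over `K` which is not isotrivial and has more than `N` preperiodic points in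
the projective line over `K` has the following properties.

* Every cross-ratio of preperiodic points in the projective line over `K` has height at most
  `768 d (d + 1) deg δ`.
* There is a coordinate change `A` over `K` which turns `f` into a map `g` all of whose
  coefficients have height at most `N deg δ`, and all preperiodic points of `g` in the projective
  line over `K` have height at most `N deg δ`. -/
theorem result (d : ℕ) (hd : 2 ≤ d) : ∃ N : ℕ,
    ∀ (k : Type v) (K : Type u) [Field k] [CharZero k] [Field K] [Algebra k K]
      [Algebra (RatFunc k) K] [IsScalarTower k (RatFunc k) K] [FiniteDimensional (RatFunc k) K]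
      (n : ℕ) (b : Module.Basis (Fin n) (RatFunc k) K),
      (∀ i, ((algebraMap (RatFunc k) K).comp
        (algebraMap (Polynomial k) (RatFunc k))).IsIntegralElem (b i)) →
    ∃ δ : Polynomial k, algebraMap (Polynomial k) (RatFunc k) δ = Algebra.discr (RatFunc k) b ∧
    ∀ f : Fin 2 → MvPolynomial (Fin 2) K, (∀ i, (f i).IsHomogeneous d) →
      (∀ x : Fin 2 → AlgebraicClosure K, (∀ i, MvPolynomial.aeval x (f i) = 0) → x = 0) →
      ¬ Isotrivial k d f →
    ∀ X : Finset (Fin 2 → K), (∀ x ∈ X, Preperiodic f x) →
      (∀ x ∈ X, ∀ y ∈ X, ∀ c : K, x = c • y → x = y) → N < X.card →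
      (∀ x y z t : Fin 2 → K, Preperiodic f x → Preperiodic f y → Preperiodic f z →
        Preperiodic f t → wedge x y ≠ 0 → wedge z t ≠ 0 → wedge x t ≠ 0 → wedge z y ≠ 0 →
        height k (wedge x y * wedge z t / (wedge x t * wedge z y)) ≤
          768 * d * (d + 1) * δ.natDegree) ∧
      ∃ (A : Matrix (Fin 2) (Fin 2) K) (g : Fin 2 → MvPolynomial (Fin 2) K) (c : K),
        A.det ≠ 0 ∧ c ≠ 0 ∧ (∀ i, (g i).IsHomogeneous d) ∧
        (∀ x : Fin 2 → K, map f (A.mulVec x) = c • A.mulVec (map g x)) ∧
        (∀ i m, height k ((g i).coeff m) ≤ N * δ.natDegree) ∧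
        ∀ x : Fin 2 → K, Preperiodic g x → height k (x 0 / x 1) ≤ N * δ.natDegree := by
  obtain ⟨N, H⟩ := Pool.Agent.Q256.LH.main_LH.{u, v} d hd
  refine ⟨N, ?_⟩
  intro k K _ _ _ _ _ _ _ n b hb
  obtain ⟨δ, hδ, H⟩ := H k K n b hb
  refine ⟨δ, hδ, ?_⟩
  intro f hf hz hiso X hX hXc hN
  obtain ⟨h1, A, g, c, hA, hc, hg, hfg, hco, hpt⟩ := H f hf hz hiso X hX hXc hN
  exact ⟨h1, A, g, c, hA, hc, hg, hfg, hco, fun x hx => hpt x hx.1 hx.2⟩

end Pool.Agent.Results.MP_9b502d_nt.HeightAboveDiscriminant
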